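import Pool.Agent.Q166.GF.Rep

/-!
# Operator representations of Gabor frames: only Riesz bases, and every ordering works

If some ordering (indexed by `ℕ` or by `ℤ`) of a Gabor frame has a bounded operator representation,
then the frame is a Riesz basis, and then every ordering has a bounded operator representation.
-/

namespace Pool.Agent.Results.MP_5c6457_an.UniversalOrdering

open MeasureTheory
open scoped ENNReal

open Pool.Agent.Q166.GF

noncomputable section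

/-- The function `t ↦ exp (2πi x t) f (t - y)`. -/
def tfFun (x y : ℝ) (f : ℝ → ℂ) : ℝ → ℂ :=
  fun t => Complex.exp (((2 * Real.pi * x * t : ℝ) : ℂ) * Complex.I) * f (t - y)

theorem tfFun_eLpNorm (x y : ℝ) (f : Lp ℂ 2 (volume : Measure ℝ)) :
    eLpNorm (tfFun x y f) 2 volume = eLpNorm f 2 volume := by
  have h1 : eLpNorm (tfFun x y f) 2 volume = eLpNorm (fun t => f (t - y)) 2 volume := by
    apply eLpNorm_congr_norm_ae
    refine Filter.Eventually.of_forall (fun t => ?_)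
    simp only [tfFun, norm_mul, Complex.norm_exp_ofReal_mul_I, one_mul]
  rw [h1]
  have h2 := eLpNorm_comp_measurePreserving (p := 2) (Lp.aestronglyMeasurable f)
    (measurePreserving_sub_right (volume : Measure ℝ) y)
  exact h2

theorem memLp_tfFun (x y : ℝ) (f : Lp ℂ 2 (volume : Measure ℝ)) :
    MemLp (tfFun x y f) 2 volume := by
  refine ⟨?_, ?_⟩
  · have h2 : Continuous (fun t : ℝ =>
        Complex.exp (((2 * Real.pi * x * t : ℝ) : ℂ) * Complex.I)) := by
      fun_prop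
    have h3 : AEStronglyMeasurable (fun t : ℝ => f (t - y)) volume :=
      (Lp.aestronglyMeasurable f).comp_measurePreserving
        (measurePreserving_sub_right (volume : Measure ℝ) y)
    exact h2.aestronglyMeasurable.mul h3
  · rw [tfFun_eLpNorm]
    exact (Lp.memLp f).2

/-- The time-frequency shift `E_x T_y f`, the class of `t ↦ exp (2πi x t) f (t - y)`. -/
def tfShift (x y : ℝ) (f : Lp ℂ 2 (volume : Measure ℝ)) : Lp ℂ 2 (volume : Measure ℝ) :=
  (memLp_tfFun x y f).toLp (tfFun x y f)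

/-- The Gabor system `E_{mb} T_{na} g`, `(m, n) ∈ ℤ × ℤ`. -/
def gabor (g : Lp ℂ 2 (volume : Measure ℝ)) (a b : ℝ) (p : ℤ × ℤ) :
    Lp ℂ 2 (volume : Measure ℝ) :=
  tfShift (p.1 * b) (p.2 * a) g

theorem tfFun_congr (x y : ℝ) (f g : ℝ → ℂ) (h : f =ᵐ[volume] g) :
    tfFun x y f =ᵐ[volume] tfFun x y g := by
  have h1 : (fun t => f (t - y)) =ᵐ[volume] (fun t => g (t - y)) :=
    (measurePreserving_sub_right (volume : Measure ℝ) y).quasiMeasurePreserving.ae_eq_comp h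
  filter_upwards [h1] with t ht
  simp only [tfFun]
  rw [ht]

/-- The time-frequency shift as a linear isometry. -/
def tfIso (x y : ℝ) : Lp ℂ 2 (volume : Measure ℝ) →ₗᵢ[ℂ] Lp ℂ 2 (volume : Measure ℝ) where
  toFun := tfShift x y
  map_add' := by
    intro f g
    apply Lp.ext
    have h1 := tfFun_congr x y _ _ (Lp.coeFn_add f g)
    filter_upwards [(memLp_tfFun x y (f + g)).coeFn_toLp, (memLp_tfFun x y f).coeFn_toLp,
      (memLp_tfFun x y g).coeFn_toLp, h1,
      Lp.coeFn_add (tfShift x y f) (tfShift x y g)] with t h2 h3 h4 h5 h6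
    rw [h6, Pi.add_apply]
    unfold tfShift
    rw [h2, h3, h4, h5]
    simp only [tfFun, Pi.add_apply]
    ring
  map_smul' := by
    intro c f
    apply Lp.ext
    have h1 := tfFun_congr x y _ _ (Lp.coeFn_smul c f)
    filter_upwards [(memLp_tfFun x y (c • f)).coeFn_toLp, (memLp_tfFun x y f).coeFn_toLp, h1,
      Lp.coeFn_smul c (tfShift x y f)] with t h2 h3 h5 h6
    rw [RingHom.id_apply, h6, Pi.smul_apply]
    unfold tfShift
    rw [h2, h3, h5]
    simp only [tfFun, Pi.smul_apply, smul_eq_mul]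
    ring
  norm_map' := by
    intro f
    change ‖tfShift x y f‖ = ‖f‖
    unfold tfShift
    rw [Lp.norm_toLp, tfFun_eLpNorm, Lp.norm_def]

/-- The phase in the commutation relation. -/
def phase (a b : ℝ) (u p : ℤ × ℤ) : ℂ :=
  Complex.exp (((-(2 * Real.pi * (p.1 * b) * (u.2 * a)) : ℝ) : ℂ) * Complex.I)

theorem tf_gabor (g : Lp ℂ 2 (volume : Measure ℝ)) (a b : ℝ) (u p : ℤ × ℤ) :
    tfIso (u.1 * b) (u.2 * a) (gabor g a b p) = phase a b u p • gabor g a b (p + u) := by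
  apply Lp.ext
  have h1 := (memLp_tfFun (p.1 * b) (p.2 * a) g).coeFn_toLp
  have h2 := tfFun_congr (u.1 * b) (u.2 * a) _ _ h1
  have h3 := (memLp_tfFun (u.1 * b) (u.2 * a) (gabor g a b p)).coeFn_toLp
  have h4 := (memLp_tfFun ((p + u).1 * b) ((p + u).2 * a) g).coeFn_toLp
  filter_upwards [h2, h3, h4, Lp.coeFn_smul (phase a b u p) (gabor g a b (p + u))]
    with t e2 e3 e4 e5
  rw [e5, Pi.smul_apply]
  change ((memLp_tfFun (u.1 * b) (u.2 * a) (gabor g a b p)).toLp _ : ℝ → ℂ) t = _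
  rw [e3]
  change tfFun (u.1 * b) (u.2 * a)
    ((memLp_tfFun (p.1 * b) (p.2 * a) g).toLp _ : ℝ → ℂ) t = _
  rw [e2]
  unfold gabor tfShift
  rw [e4]
  simp only [tfFun, smul_eq_mul, phase]
  have e6 : t - u.2 * a - p.2 * a = t - ((p + u).2 : ℤ) * a := by
    rw [Prod.snd_add]
    push_cast
    ring
  rw [e6]
  have e7 : Complex.exp (((2 * Real.pi * (u.1 * b) * t : ℝ) : ℂ) * Complex.I) *
      Complex.exp (((2 * Real.pi * (p.1 * b) * (t - u.2 * a) : ℝ) : ℂ) * Complex.I)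
      = Complex.exp (((-(2 * Real.pi * (p.1 * b) * (u.2 * a)) : ℝ) : ℂ) * Complex.I) *
      Complex.exp (((2 * Real.pi * (((p + u).1 : ℤ) * b) * t : ℝ) : ℂ) * Complex.I) := by
    rw [← Complex.exp_add, ← Complex.exp_add]
    congr 1
    rw [Prod.fst_add]
    push_cast
    ring
  linear_combination (g (t - ((p + u).2 : ℤ) * a)) * e7

theorem phase_norm (a b : ℝ) (u p : ℤ × ℤ) : ‖phase a b u p‖ = 1 := by
  unfold phase
  rw [Complex.norm_exp_ofReal_mul_I]

theorem gabor_ne_zero (g : Lp ℂ 2 (volume : Measure ℝ)) (hg : g ≠ 0) (a b : ℝ) (p : ℤ × ℤ) :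
    gabor g a b p ≠ 0 := by
  intro h
  apply hg
  have h1 : ‖tfIso (p.1 * b) (p.2 * a) g‖ = ‖g‖ := (tfIso _ _).norm_map g
  have h2 : tfIso (p.1 * b) (p.2 * a) g = gabor g a b p := rfl
  rw [h2, h, norm_zero] at h1
  exact norm_eq_zero.mp h1.symm

/-- The Hilbert space `L²(ℝ)`. -/
abbrev L2R : Type := Lp ℂ 2 (volume : Measure ℝ)

/-- The Gabor system `E_{mb} T_{na} g`, `(m, n) ∈ ℤ × ℤ`. -/
def gaborSystem (g : L2R) (a b : ℝ) : ℤ × ℤ → L2R := gabor g a b

/-- `G(g,a,b)` is a Gabor frame with `a, b > 0` and `g ≠ 0`. -/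
def IsGaborFrame (g : L2R) (a b : ℝ) : Prop :=
  g ≠ 0 ∧ 0 < a ∧ 0 < b ∧ IsFrame (gaborSystem g a b)

/-- The ordering of `G(g,a,b)` given by `σ : ℕ → ℤ²` admits a bounded representation. -/
def OrderingNat (σ : ℕ ≃ ℤ × ℤ) (g : L2R) (a b : ℝ) : Prop :=
  RepNat (fun k => gaborSystem g a b (σ k))

/-- The ordering of `G(g,a,b)` given by `σ : ℤ → ℤ²` admits a bounded representation. -/
def OrderingInt (σ : ℤ ≃ ℤ × ℤ) (g : L2R) (a b : ℝ) : Prop :=
  RepInt (fun k => gaborSystem g a b (σ k))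

/-- The class `C_I` for `I = ℕ`. -/
def ClassNat (g : L2R) (a b : ℝ) : Prop :=
  IsGaborFrame g a b ∧ ∃ σ : ℕ ≃ ℤ × ℤ, OrderingNat σ g a b

/-- The class `C_I` for `I = ℤ`. -/
def ClassInt (g : L2R) (a b : ℝ) : Prop :=
  IsGaborFrame g a b ∧ ∃ σ : ℤ ≃ ℤ × ℤ, OrderingInt σ g a b

/-- `G(g,a,b)` is a Riesz basis. -/
def GaborRiesz (g : L2R) (a b : ℝ) : Prop :=
  IsRieszBasis (gaborSystem g a b)

theorem riesz_of_classNat (g : L2R) (a b : ℝ) (h : ClassNat g a b) :
    IsRiesz (gabor g a b) := by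
  obtain ⟨⟨hg, -, -, hf⟩, σ, hσ⟩ := h
  exact riesz_of_repNat (gabor g a b) hf ⟨0, gabor_ne_zero g hg a b 0⟩
    (fun u => tfIso (u.1 * b) (u.2 * a)) (phase a b) (phase_norm a b)
    (fun u v => tf_gabor g a b u v) σ ((repNat_iff _).mp hσ)

theorem riesz_of_classInt (g : L2R) (a b : ℝ) (h : ClassInt g a b) :
    IsRiesz (gabor g a b) := by
  obtain ⟨⟨hg, -, -, hf⟩, σ, hσ⟩ := h
  exact riesz_of_repInt (gabor g a b) hf ⟨0, gabor_ne_zero g hg a b 0⟩
    (fun u => tfIso (u.1 * b) (u.2 * a)) (phase a b) (phase_norm a b)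
    (fun u v => tf_gabor g a b u v) σ ((repInt_iff _).mp hσ)

/-- **Main theorem.** For `I = ℕ` and for `I = ℤ` there is a bijection `σ : I → ℤ²` such that for
every `(g,a,b)` in `C_I` the ordering given by `σ` admits a bounded representation; indeed every
bijection has this property, because every Gabor frame in `C_I` is a Riesz basis. -/
theorem result :
    ((∃ σ : ℕ ≃ ℤ × ℤ, ∀ g a b, ClassNat g a b → OrderingNat σ g a b) ∧
      (∀ σ : ℕ ≃ ℤ × ℤ, ∀ g a b, ClassNat g a b → OrderingNat σ g a b) ∧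
      (∀ g a b, ClassNat g a b → GaborRiesz g a b)) ∧
    ((∃ σ : ℤ ≃ ℤ × ℤ, ∀ g a b, ClassInt g a b → OrderingInt σ g a b) ∧
      (∀ σ : ℤ ≃ ℤ × ℤ, ∀ g a b, ClassInt g a b → OrderingInt σ g a b) ∧
      (∀ g a b, ClassInt g a b → GaborRiesz g a b)) := by
  have hN : ∀ σ : ℕ ≃ ℤ × ℤ, ∀ g a b, ClassNat g a b → OrderingNat σ g a b :=
    fun σ g a b h => (repNat_iff _).mpr (repNat_of_riesz _ (riesz_of_classNat g a b h) σ)
  have hZ : ∀ σ : ℤ ≃ ℤ × ℤ, ∀ g a b, ClassInt g a b → OrderingInt σ g a b :=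
    fun σ g a b h => (repInt_iff _).mpr (repInt_of_riesz _ (riesz_of_classInt g a b h) σ)
  have hden : Denumerable (ℤ × ℤ) := inferInstance
  have e1 : ℕ ≃ ℤ × ℤ := (Denumerable.eqv (ℤ × ℤ)).symm
  have e2 : ℤ ≃ ℤ × ℤ := (Denumerable.eqv ℤ).trans e1
  exact ⟨⟨⟨e1, hN e1⟩, hN, fun g a b h => (riesz_of_classNat g a b h).isRieszBasis
      ⟨0, gabor_ne_zero g h.1.1 a b 0⟩⟩,
    ⟨⟨e2, hZ e2⟩, hZ, fun g a b h => (riesz_of_classInt g a b h).isRieszBasis
      ⟨0, gabor_ne_zero g h.1.1 a b 0⟩⟩⟩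

end

end Pool.Agent.Results.MP_5c6457_an.UniversalOrdering
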